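import Pool.Agent.H.MP_28fd2b_an.B

namespace Pool.Agent.H.MP_0c3956_an

open Filter Topology MeasureTheory Finset Pool.Agent.H.MP_28fd2b_an

variable {X : Type} [MetricSpace X] [CompactSpace X] [MeasurableSpace X] [BorelSpace X]
  {T : X → X}

theorem core (hT : Continuous T) {μ : Measure X} [IsProbabilityMeasure μ]
    (hu : ∀ ν : Measure X, IsProbabilityMeasure ν ∧ ν.map T = ν → ν = μ) {m : ℕ} (m0 : 0 < m)
    (φ : Fin 2 → C(X, ℝ)) (h0 : ∀ i x, 0 ≤ φ i x) (h1 : ∀ x, ∑ i, φ i x = 1)
    (H : ∀ (g : ℕ → Fin 2) (L : ℕ), ∃ y : X, ∀ n < L, ∃ j < m,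
      φ (g (n + j)) (T^[n + j] y) = 0) : False := by
  classical
  have h2 : ∀ i x, φ i x ≤ 1 := fun i x =>
    (single_le_sum (f := fun i => φ i x) (fun i _ => h0 i x) (mem_univ i)).trans (h1 x).le
  let I : ℕ → C(X, X) := fun j => ⟨T^[j], hT.iterate j⟩
  let P : (Fin m → Fin 2) → C(X, ℝ) := fun w => ∏ j, (φ (w j)).comp (I j)
  have hP : ∀ w x, P w x = ∏ j, φ (w j) (T^[j] x) := fun w x => by simp [P, I]
  obtain ⟨w, hw⟩ : ∃ w, 0 < ∫ x, P w x ∂μ := by
    by_contra hn
    push Not at hn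
    have a1 := sum_nonpos fun w (_ : w ∈ univ) => hn w
    rw [← integral_finsetSum _ fun w _ => intg μ _] at a1
    have a2 : ∀ x, ∑ w, P w x = 1 := fun x => by
      simp only [hP]
      rw [← Fintype.prod_sum (fun (j : Fin m) i => φ i (T^[j] x))]
      simp only [h1, prod_const_one]
    simp [a2] at a1
    linarith
  have P0 : ∀ x, 0 ≤ P w x := fun x => by rw [hP]; exact prod_nonneg fun _ _ => h0 _ _
  have P1 : ∀ x, P w x ≤ 1 := fun x => by
    rw [hP]
    exact prod_le_one (fun _ _ => h0 _ _) fun _ _ => h2 _ _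
  set c := ∫ x, P w x ∂μ with hc
  let q : ℕ → ℕ := fun a => Nat.fermatNumber (a + m)
  have qm : ∀ a, m ≤ q a := fun a => (Nat.le_add_left m a).trans Nat.fermatNumber_strictMono.le_apply
  have : ∀ a, NeZero (q a) := fun a => ⟨by have := qm a; omega⟩
  let G : ∀ a, ZMod (q a) → Fin 2 := fun a z => w ⟨z.val % m, Nat.mod_lt _ m0⟩
  let St : ∀ a, ZMod (q a) → Prop := fun a z => z.val % m = 0 ∧ z.val + m ≤ q a
  obtain ⟨a, L0, hL⟩ := corr hT hu (ι := Unit) (fun _ => -P w)
    (fun _ x => by simpa [abs_of_nonneg (P0 x)] using P1 x) q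
    (fun a b hab => Nat.coprime_fermatNumber_fermatNumber (by omega))
    (fun a _ z => if St a z then 1 else 0)
    (by intro a _ z; split_ifs <;> simp) (δ := c / (4 * m)) (by positivity)
  have q0 : (0 : ℝ) < q a := by exact_mod_cast NeZero.pos (q a)
  have m1 : (0 : ℝ) < m := by exact_mod_cast m0
  have e2 : 1 / (2 * m) ≤ mean (fun z => if St a z then (1 : ℝ) else 0) := by
    have b1 : q a / m ≤ (univ.filter (St a)).card := by
      have b2 : ∀ j < q a / m, j * m + m ≤ q a := fun j hj => by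
        have := Nat.div_mul_le_self (q a) m
        nlinarith
      have b3 : ∀ j < q a / m, ((j * m : ℕ) : ZMod (q a)).val = j * m := fun j hj =>
        ZMod.val_cast_of_lt (by have := b2 j hj; omega)
      simpa using card_le_card_of_injOn (s := range (q a / m)) (t := univ.filter (St a))
        (fun j => ((j * m : ℕ) : ZMod (q a))) (fun j hj => by
          have hj := mem_range.1 hj
          simp only [coe_filter, mem_univ, true_and, Set.mem_setOf_eq, St, b3 j hj]
          exact ⟨by simp, b2 j hj⟩) fun i hi j hj h => by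
          have := congrArg ZMod.val h
          rw [b3 i (mem_range.1 hi), b3 j (mem_range.1 hj)] at this
          exact Nat.eq_of_mul_eq_mul_right m0 this
    have b4 : q a ≤ 2 * m * (q a / m) := by
      have := Nat.div_add_mod (q a) m
      have := Nat.mod_lt (q a) m0
      have := Nat.div_pos (qm a) m0
      nlinarith
    rw [mean, sum_boole, le_inv_mul_iff₀ q0, mul_one_div, div_le_iff₀ (by positivity)]
    exact_mod_cast b4.trans (by nlinarith)
  obtain ⟨y, hy⟩ := H (fun n => G a n) (L0 + 1)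
  have b1 := hL (L0 + 1) (by omega) y
  have val : ∀ n : ℕ, St a n → ∀ i < m, ((n + i : ℕ) : ZMod (q a)).val % m = i := by
    intro n hn i hi
    obtain ⟨c1, c2⟩ := hn
    rw [Nat.cast_add, ZMod.val_add, ZMod.val_cast_of_lt (a := i) (by omega),
      Nat.mod_eq_of_lt (a := _ + i) (b := q a) (by omega), Nat.add_mod, c1, zero_add, Nat.mod_mod,
      Nat.mod_eq_of_lt hi]
  have b2 : ∑ n ∈ range (L0 + 1), (-P w) (T^[n] y) * (if St a n then (1 : ℝ) else 0) = 0 := by
    refine sum_eq_zero fun n hn => ?_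
    split_ifs with h
    · obtain ⟨j, hj, h3⟩ := hy n (mem_range.1 hn)
      simp only [G, val n h j hj] at h3
      have : T^[n + j] y = T^[j] (T^[n] y) := by rw [add_comm, Function.iterate_add_apply]
      rw [this] at h3
      rw [ContinuousMap.neg_apply, hP, prod_eq_zero (mem_univ ⟨j, hj⟩) h3]
      simp
    · simp
  simp only [univ_unique, sum_singleton, b2] at b1
  simp only [ContinuousMap.neg_apply, integral_neg, ← hc] at b1
  have b6 : c / (4 * m) * 2 ≤ c * mean (fun z => if St a z then (1 : ℝ) else 0) := by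
    refine le_trans (le_of_eq ?_) (mul_le_mul_of_nonneg_left e2 hw.le)
    field_simp
    ring
  have : 0 < c / (4 * m) := by positivity
  have b7 : (0 : ℝ) < (L0 + 1 : ℕ) := by positivity
  nlinarith

theorem univ2 : ∃ f : ℕ → Fin 2, ∀ (g : ℕ → Fin 2) (L : ℕ), ∃ a, ∀ n < L, f (a + 1 + n) = g n := by
  obtain ⟨e, he⟩ := exists_surjective_nat (List (Fin 2))
  let a : ℕ → ℕ := fun t => Nat.rec 0 (fun t p => p + (e t).length + 1) t
  have a1 : ∀ t, a t + (e t).length + 1 ≤ a (t + 1) := fun t => le_rfl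
  have a3 : StrictMono a := strictMono_nat_of_lt_succ fun t => by have := a1 t; omega
  clear_value a
  let b : ℕ → ℕ := fun n => @Nat.findGreatest (fun t => a t < n) (fun _ => Nat.decLt _ _) n
  refine ⟨fun n : ℕ => (e (b n)).getD (n - a (b n) - 1) 0, fun g L => ?_⟩
  obtain ⟨t, ht⟩ := he (List.ofFn fun i : Fin L => g i)
  have hl : (e t).length = L := by simp [ht]
  refine ⟨a t, fun n hn => ?_⟩
  have : b (a t + 1 + n) = t := by
    refine (@Nat.findGreatest_eq_iff _ _ _ (fun _ => Nat.decLt _ _)).2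
      ⟨by have := a3.le_apply (x := t); omega, fun _ => by omega, fun s hs _ => ?_⟩
    have := a3.monotone (Nat.succ_le_of_lt hs)
    have := a1 t
    simp only [Nat.succ_eq_add_one] at *
    omega
  simp only [this, ht]
  rw [show a t + 1 + n - a t - 1 = n by omega]
  simp [hn]

theorem main {S : Set ℕ} {m : ℕ} (hS : ∀ a, ∃ j < m, a + 1 + j ∈ S) : ¬ WIS 2 S := by
  intro hW
  obtain ⟨f, hf⟩ := univ2
  obtain ⟨X, _, _, _, _, T, hT, ⟨μ, ⟨h1, h2⟩, hu⟩, x, F, -, hF⟩ := hW fun n => f n
  have m0 : 0 < m := by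
    obtain ⟨j, hj, -⟩ := hS 0
    omega
  let u : C(X, ℝ) := ⟨fun y => min ‖F y‖ 1, by fun_prop⟩
  refine core hT hu m0 ![u, 1 - u] ?_ (fun y => by simp) fun g L => ?_
  · intro i y
    fin_cases i
    · exact le_min (norm_nonneg _) zero_le_one
    · simp [u]
  · obtain ⟨a, h4⟩ := hf g (L + m)
    refine ⟨T^[a + 1] x, fun n hn => ?_⟩
    obtain ⟨j, hj, h5⟩ := hS (a + n)
    refine ⟨j, hj, ?_⟩
    rw [show a + n + 1 + j = a + 1 + (n + j) by omega] at h5
    have := hF ⟨_, h5⟩
    simp only [h4 (n + j) (by omega)] at this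
    rw [← Function.iterate_add_apply, add_comm (n + j)]
    generalize g (n + j) = i at *
    fin_cases i <;> simp [u, this]

end Pool.Agent.H.MP_0c3956_an
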